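import Pool.Agent.H87.D3.Targets2

/-!
# Board d3h_modules, row LIN: graph lines
-/

set_option autoImplicit false

namespace Pool.Agent.H99.D3

open Pool.Agent.H87.D3
open scoped RealInnerProductSpace

theorem nrm3 (x : V) : ‖x‖ ^ 2 = x 0 ^ 2 + x 1 ^ 2 + x 2 ^ 2 := by
  rw [EuclideanSpace.real_norm_sq_eq]
  exact Fin.sum_univ_three (fun i : Fin 3 => (x i) ^ 2)

theorem inn3 (x y : V) : ⟪x, y⟫ = x 0 * y 0 + x 1 * y 1 + x 2 * y 2 := by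
  rw [PiLp.inner_apply]
  have h := Fin.sum_univ_three (fun i : Fin 3 => ⟪x i, y i⟫)
  refine h.trans ?_
  simp only [RCLike.inner_apply, conj_trivial]
  ring

theorem lin_alg (s0 s1 p q z n : ℝ) (hn : n ^ 2 = 1 + s0 ^ 2 + s1 ^ 2) (hn0 : 0 < n) :
    p ^ 2 + q ^ 2 + z ^ 2 - (p * (s0 / n) + q * (s1 / n) + z * (1 / n)) ^ 2 =
      (p - s0 * z) ^ 2 + (q - s1 * z) ^ 2 -
        (s0 * (p - s0 * z) + s1 * (q - s1 * z)) ^ 2 / n ^ 2 := by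
  have h1 : p * (s0 / n) + q * (s1 / n) + z * (1 / n) = (p * s0 + q * s1 + z) / n := by
    field_simp
  rw [h1, div_pow]
  have h2 : n ^ 2 ≠ 0 := by positivity
  have h3 : (p * s0 + q * s1 + z) ^ 2 / n ^ 2 * n ^ 2 = (p * s0 + q * s1 + z) ^ 2 :=
    div_mul_cancel₀ _ h2
  have h4 : (s0 * (p - s0 * z) + s1 * (q - s1 * z)) ^ 2 / n ^ 2 * n ^ 2 =
      (s0 * (p - s0 * z) + s1 * (q - s1 * z)) ^ 2 := div_mul_cancel₀ _ h2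
  apply mul_right_cancel₀ h2
  rw [sub_mul, sub_mul, h3, h4, hn]
  ring

theorem pf_LIN : T_LIN := by
  intro y0 y1 s0 s1 hs
  have hN : (0 : ℝ) < 1 + s0 ^ 2 + s1 ^ 2 := by positivity
  obtain ⟨n, hn0, hn⟩ : ∃ n : ℝ, 0 < n ∧ n ^ 2 = 1 + s0 ^ 2 + s1 ^ 2 :=
    ⟨Real.sqrt (1 + s0 ^ 2 + s1 ^ 2), Real.sqrt_pos.mpr hN, Real.sq_sqrt hN.le⟩
  let a : V := WithLp.toLp 2 (![y0, y1, 0] : Fin 3 → ℝ)
  let T : V := WithLp.toLp 2 (![s0 / n, s1 / n, 1 / n] : Fin 3 → ℝ)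
  have a0 : a 0 = y0 := rfl
  have a1 : a 1 = y1 := rfl
  have a2 : a 2 = 0 := rfl
  have t0 : T 0 = s0 / n := rfl
  have t1 : T 1 = s1 / n := rfl
  have t2 : T 2 = 1 / n := rfl
  have hT : ‖T‖ = 1 := by
    have h1 : ‖T‖ ^ 2 = 1 := by
      rw [nrm3, t0, t1, t2]
      have h2 : n ^ 2 ≠ 0 := by positivity
      rw [div_pow, div_pow, div_pow, ← add_div, ← add_div, div_eq_one_iff_eq h2, hn]
      ring
    exact (pow_eq_one_iff_of_nonneg (norm_nonneg T) (by norm_num)).mp h1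
  refine ⟨a, T, hT, a0, a1, a2, ?_⟩
  intro x
  have hd0 : hd y0 y1 s0 s1 x = (x 0 - y0 - s0 * x 2) ^ 2 + (x 1 - y1 - s1 * x 2) ^ 2 := by
    rw [hd]
    ring
  have hdl : dl a T x = (x 0 - y0 - s0 * x 2) ^ 2 + (x 1 - y1 - s1 * x 2) ^ 2 -
      (s0 * (x 0 - y0 - s0 * x 2) + s1 * (x 1 - y1 - s1 * x 2)) ^ 2 / n ^ 2 := by
    have e0 : (x - a) 0 = x 0 - y0 := rfl
    have e1 : (x - a) 1 = x 1 - y1 := rfl
    have e2 : (x - a) 2 = x 2 - 0 := rfl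
    rw [dl, nrm3, inn3, e0, e1, e2, t0, t1, t2, sub_zero]
    exact lin_alg s0 s1 (x 0 - y0) (x 1 - y1) (x 2) n hn hn0
  obtain ⟨P, hP⟩ : ∃ P : ℝ, P = x 0 - y0 - s0 * x 2 := ⟨_, rfl⟩
  obtain ⟨Q, hQ⟩ : ∃ Q : ℝ, Q = x 1 - y1 - s1 * x 2 := ⟨_, rfl⟩
  rw [hdl, hd0, ← hP, ← hQ]
  have h3 : 0 ≤ (s0 * P + s1 * Q) ^ 2 / n ^ 2 := by positivity
  have h4 : (s0 * P + s1 * Q) ^ 2 / n ^ 2 ≤ (P ^ 2 + Q ^ 2) / 2 := by
    rw [div_le_iff₀ (by positivity), hn]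
    nlinarith [sq_nonneg (s0 * Q - s1 * P), mul_nonneg (by linarith : 0 ≤ 1 - (s0 ^ 2 + s1 ^ 2))
      (by positivity : 0 ≤ P ^ 2 + Q ^ 2)]
  refine ⟨by positivity, by linarith, by linarith⟩

end Pool.Agent.H99.D3
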